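import Pool.Agent.Helper80.EC_F.Goals

set_option autoImplicit false

open MeasureTheory Filter Topology Set

namespace EC237.PF.PkGAM

theorem int_aux (k : ℕ) (c : ℝ) (hc : 0 < c) :
    ∫ z in Ioi (0:ℝ), z ^ k * Real.exp (-(c * z)) = (k.factorial : ℝ) / c ^ (k + 1) := by
  have h := Real.integral_rpow_mul_exp_neg_mul_Ioi (a := (k:ℝ) + 1) (r := c) (by positivity) hc
  have e : ∀ z : ℝ, z ∈ Ioi (0:ℝ) →
      z ^ (((k:ℝ) + 1) - 1) * Real.exp (-(c * z)) = z ^ k * Real.exp (-(c * z)) := by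
    intro z _
    rw [add_sub_cancel_right, Real.rpow_natCast]
  rw [setIntegral_congr_fun measurableSet_Ioi e] at h
  rw [h, Real.Gamma_nat_eq_factorial]
  rw [show ((k:ℝ) + 1) = ((k + 1 : ℕ) : ℝ) by push_cast; ring, Real.rpow_natCast]
  rw [one_div, inv_pow]
  field_simp

theorem int_on (k : ℕ) (c : ℝ) (hc : 0 < c) :
    IntegrableOn (fun z : ℝ => z ^ k * Real.exp (-(c * z))) (Ioi 0) := by
  have h := integrableOn_rpow_mul_exp_neg_mul_rpow (p := 1) (s := (k:ℝ)) (b := c)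
    (by have : (0:ℝ) ≤ (k:ℝ) := Nat.cast_nonneg k
        linarith) one_pos hc
  refine h.congr_fun ?_ measurableSet_Ioi
  intro z _
  simp only [Real.rpow_natCast, Real.rpow_one, neg_mul]

theorem thm : EC237.PF.G_GAM := fun k c hc => ⟨int_on k c hc, int_aux k c hc⟩

end EC237.PF.PkGAM
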