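import Pool.Agent.Helper80.EC_F.Goals
import Pool.Agent.Helper88.EC_F.GAM

set_option autoImplicit false

open MeasureTheory Filter Topology Set

namespace EC237.PF.PkINT3

theorem exp_le (x : ℝ) (hx : 0 < x) : Real.exp (-x) ≤ 24 / x ^ 4 := by
  have h := Real.pow_div_factorial_le_exp x hx.le 4
  rw [Real.exp_neg, inv_eq_one_div, div_le_div_iff₀ (Real.exp_pos x) (by positivity)]
  have e : ((4:ℕ).factorial : ℝ) = 24 := by norm_num [Nat.factorial]
  rw [e, div_le_iff₀ (by norm_num)] at h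
  linarith

theorem pt (a b y : ℝ) (ha : 0 < a) (hy : 0 < y) :
    y * Real.exp (-(a / y) - b * y) ≤ 24 / a ^ 4 * (y ^ 5 * Real.exp (-(b * y))) := by
  have h := exp_le (a / y) (by positivity)
  have e : Real.exp (-(a / y) - b * y) = Real.exp (-(a / y)) * Real.exp (-(b * y)) := by
    rw [← Real.exp_add]; ring_nf
  rw [e]
  have e2 : (24:ℝ) / (a / y) ^ 4 = 24 / a ^ 4 * y ^ 4 := by
    field_simp
  rw [e2] at h
  calc y * (Real.exp (-(a / y)) * Real.exp (-(b * y)))
      = Real.exp (-(a / y)) * (y * Real.exp (-(b * y))) := by ring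
    _ ≤ (24 / a ^ 4 * y ^ 4) * (y * Real.exp (-(b * y))) := by
        apply mul_le_mul_of_nonneg_right h
        positivity
    _ = _ := by ring

theorem thm : EC237.PF.G_INT3 := by
  intro a b ha hb
  have hpos : ∀ y ∈ Ioi (0:ℝ), 0 ≤ y * Real.exp (-(a / y) - b * y) := by
    intro y hy
    have : (0:ℝ) < y := hy
    positivity
  refine ⟨setIntegral_nonneg measurableSet_Ioi hpos, ?_⟩
  have hi : IntegrableOn (fun y : ℝ => 24 / a ^ 4 * (y ^ 5 * Real.exp (-(b * y)))) (Ioi 0) :=
    (EC237.PF.PkGAM.int_on 5 b hb).const_mul _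
  have hle : ∫ y in Ioi (0:ℝ), y * Real.exp (-(a / y) - b * y) ≤
      ∫ y in Ioi (0:ℝ), 24 / a ^ 4 * (y ^ 5 * Real.exp (-(b * y))) := by
    apply integral_mono_of_nonneg
    · exact (ae_restrict_iff' measurableSet_Ioi).2 (Eventually.of_forall hpos)
    · exact hi
    · exact (ae_restrict_iff' measurableSet_Ioi).2
        (Eventually.of_forall fun y hy => pt a b y ha hy)
  refine hle.trans (le_of_eq ?_)
  rw [integral_const_mul, EC237.PF.PkGAM.int_aux 5 b hb]
  have e : ((5:ℕ).factorial : ℝ) = 120 := by norm_num [Nat.factorial]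
  rw [e]
  field_simp
  ring

end EC237.PF.PkINT3
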